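import Pool.Agent.Helper62.SDP12.Data

/-!
# The kernel check
-/

namespace Pool.Agent.Helper62.SDP12

open SDP

theorem stat_ok : stat (2 ^ 143) (2 ^ 50) 12 F0 (F0 :: FR) bls = true := by decide +kernel

theorem chk_ok : chk (2 ^ 144) (2 ^ 143) 13 4225 (2 ^ 51) (2 ^ 50) 13 F0 (F0 :: FR) bls = true := by
  decide +kernel

end Pool.Agent.Helper62.SDP12
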