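import Pool.Agent.Helper62.SDP12.Thm
import Pool.Agent.Helper66.Kiss.StA

/-! # The three point bound as a lower bound of `Psi` (hypothesis `hSDP` of `stageA2` and `assemble`) -/

namespace Pool.Agent.Helper62.SDP12

open Pool.Agent.Helper66.Kiss

/-- Every configuration has a pair whose inner product is smaller than `-11/12` (156.44 degrees), so
the tilt of the most antipodal pair is smaller than 23.56 degrees. -/
theorem hSDP : ∀ X ∈ Conf, (11 / 12 : ℝ) < Psi X := by
  intro X hX
  obtain ⟨h1, h2⟩ := (mem_Conf_iff X).1 hX
  obtain ⟨i, j, hij, h⟩ := exists_angle X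
    (fun i => by
      have := h1 i
      rw [real_inner_self_eq_norm_sq] at this
      nlinarith [norm_nonneg (X i)]) h2
  have := le_Psi X hij
  linarith

/-- The size of `c0`. -/
theorem c0_ge : (9 / 10 : ℝ) ≤ 11 / 12 := by norm_num

end Pool.Agent.Helper62.SDP12
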